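import Pool.Agent.helper88.GR.Spec
import Pool.Agent.helper54.CR.Landau

set_option autoImplicit false

open Complex Metric Set Filter Topology MeasureTheory
open MPS (om)
open PPS (pre TT fd)
open XPS (Df er dens tau)

noncomputable section

namespace GR

theorem GRO_core {F : ℂ → ℂ} {w : ℂ} {r : ℝ} (hr : 0 < r) (hF : DifferentiableOn ℂ F (ball w r))
    (h01 : ∀ z ∈ ball w r, F z ≠ 0 ∧ F z ≠ 1) (z : ℂ) (hz : z ∈ closedBall w (r / 2)) :
    1 + |Real.log ‖F z‖| ≤ Real.exp 4000 * (1 + |Real.log ‖F w‖|) := by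
  have hw : w ∈ ball w r := mem_ball_self hr
  obtain ⟨h, hhd, hhw, hh⟩ := Pool.Agent.helper98.ILF.exists_lift_exp (u := Complex.log (F w)) hr hF
    (fun z hz => (h01 z hz).1) (Complex.exp_log (h01 w hw).1)
  have hha : ∀ y ∈ ball w r, HasDerivAt h (deriv h y) y := fun y hy =>
    ((hhd y hy).differentiableAt (isOpen_ball.mem_nhds hy)).hasDerivAt
  have hlog : ∀ y ∈ ball w r, Real.log ‖F y‖ = (h y).re := by
    intro y hy
    rw [← hh y hy, Complex.norm_exp, Real.log_exp]
  have hz2 : ‖z - w‖ ≤ r / 2 := by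
    rwa [mem_closedBall, dist_eq_norm] at hz
  have key : ∀ y : ℂ, ‖y - w‖ ≤ r / 2 → ‖deriv h y‖ ≤ 4000 / (r / 2) * (1 + |(h y).re|) := by
    intro y hy
    have hy1 : y ∈ ball w r := by
      rw [mem_ball, dist_eq_norm]
      linarith
    have hsub : ball y (r / 2) ⊆ ball w r := by
      intro x hx
      rw [mem_ball, dist_eq_norm] at hx
      rw [mem_ball, dist_eq_norm]
      have : ‖x - w‖ ≤ ‖x - y‖ + ‖y - w‖ := by
        have := norm_add_le (x - y) (y - w)
        rwa [sub_add_sub_cancel] at this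
      linarith
    have hlan := Pool.Agent.helper54.CR.landau (F := F) (w := y) (ρ := r / 2) (by linarith)
      (hF.mono hsub) (fun x hx => (h01 x (hsub hx)).1) (fun x hx => (h01 x (hsub hx)).2)
    rw [hlog y hy1] at hlan
    have hder : deriv F y = Complex.exp (h y) * deriv h y := by
      have h1 : F =ᶠ[𝓝 y] fun x => Complex.exp (h x) := by
        filter_upwards [isOpen_ball.mem_nhds hy1] with x hx
        exact (hh x hx).symm
      rw [h1.deriv_eq]
      exact ((hha y hy1).cexp).deriv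
    rw [hder, ← hh y hy1, mul_div_cancel_left₀ _ (Complex.exp_ne_zero _)] at hlan
    exact hlan
  have hmem : ∀ t ∈ Icc (0 : ℝ) 1, ‖(w + (t : ℂ) * (z - w)) - w‖ ≤ r / 2 := by
    intro t ht
    rw [add_sub_cancel_left, norm_mul, Complex.norm_real, Real.norm_eq_abs, abs_of_nonneg ht.1]
    calc t * ‖z - w‖ ≤ 1 * ‖z - w‖ := by
          apply mul_le_mul_of_nonneg_right ht.2 (norm_nonneg _)
      _ ≤ r / 2 := by rw [one_mul]; exact hz2
  have hd : ∀ t ∈ Icc (0 : ℝ) 1,
      HasDerivAt (fun t : ℝ => (h (w + (t : ℂ) * (z - w))).re)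
        ((deriv h (w + (t : ℂ) * (z - w)) * (z - w)).re) t := by
    intro t ht
    have hm : w + (t : ℂ) * (z - w) ∈ ball w r := by
      rw [mem_ball, dist_eq_norm]
      linarith [hmem t ht]
    have e1 : HasDerivAt (fun x : ℂ => w + x * (z - w)) (z - w) (t : ℂ) := by
      simpa using ((hasDerivAt_id (t : ℂ)).mul_const (z - w)).const_add w
    have e2 : HasDerivAt (fun x : ℂ => h (w + x * (z - w)))
        (deriv h (w + (t : ℂ) * (z - w)) * (z - w)) (t : ℂ) :=
      HasDerivAt.comp (t : ℂ) (hha _ hm) e1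
    exact e2.real_of_complex
  have hgr := norm_le_gronwallBound_of_norm_deriv_right_le (E := ℝ)
    (f := fun t : ℝ => (h (w + (t : ℂ) * (z - w))).re)
    (f' := fun t : ℝ => (deriv h (w + (t : ℂ) * (z - w)) * (z - w)).re)
    (δ := |(h w).re|) (K := 4000) (ε := 4000) (a := 0) (b := 1)
    (fun t ht => (hd t ht).continuousAt.continuousWithinAt)
    (fun t ht => (hd t (Ico_subset_Icc_self ht)).hasDerivWithinAt)
    (by simp [Real.norm_eq_abs])
    (by
      intro t ht
      have h2 := key _ (hmem t (Ico_subset_Icc_self ht))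
      have h3 : ‖(deriv h (w + (t : ℂ) * (z - w)) * (z - w)).re‖ ≤
          ‖deriv h (w + (t : ℂ) * (z - w))‖ * ‖z - w‖ := by
        rw [← norm_mul]
        exact Complex.abs_re_le_norm _
      have h4 : ‖deriv h (w + (t : ℂ) * (z - w))‖ * ‖z - w‖ ≤
          4000 / (r / 2) * (1 + |(h (w + (t : ℂ) * (z - w))).re|) * (r / 2) := by
        apply mul_le_mul h2 hz2 (norm_nonneg _)
        positivity
      have h5 : 4000 / (r / 2) * (1 + |(h (w + (t : ℂ) * (z - w))).re|) * (r / 2) =
          4000 * |(h (w + (t : ℂ) * (z - w))).re| + 4000 := by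
        field_simp
        ring
      rw [Real.norm_eq_abs, Real.norm_eq_abs]
      rw [Real.norm_eq_abs] at h3
      linarith)
    1 (right_mem_Icc.2 zero_le_one)
  rw [gronwallBound_of_K_ne_0 (by norm_num : (4000 : ℝ) ≠ 0), div_self (by norm_num)] at hgr
  have e9 : w + ((1 : ℝ) : ℂ) * (z - w) = z := by
    push_cast
    ring
  simp only [e9, sub_zero, mul_one, one_mul, Real.norm_eq_abs] at hgr
  have hz1 : z ∈ ball w r := by
    rw [mem_ball, dist_eq_norm]
    linarith
  rw [hlog z hz1, hlog w hw]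
  linarith

theorem GRO : GRO_stmt := by
  refine ⟨Real.exp 4000, Real.one_le_exp (by norm_num), ?_⟩
  intro F w r hr hF h01 z hz
  exact GRO_core hr hF h01 z hz

end GR
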